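import Pool.Agent.Helper29.BE.Iter
import Pool.Agent.TH110.Zig.Primes

/-!
# Several numbers `N_j = G_j(n) + q_j` with one very small argument `n`

Let `G_1, ..., G_r` be nonconstant integer polynomials with positive leading coefficients, and let `A` be
ANY set of integers `n₀ ≤ n ≤ M` of the same parity with at least `(log H) ^ r` elements, `H ≥ M ^ K`. So
`A` can be as small as a power of `log H`, and its elements too. Then for at least
`c H ^ r / (log log M) ^ r` of the `r`-tuples `(N_1, ..., N_r)` of natural numbers up to `H` there is ONE `n`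
in `A` such that all the numbers `N_j - G_j(n)` are prime. In particular this holds with a prime `n`
(this is `g = 1`, `F_1 = x` in Schinzel's hypothesis), where `n` can be as small as `(log H) ^ r log log H`.

The proof is the second moment method, with the sharp form of the upper bound sieve for prime pairs
and the moments of the singular factor over differences of the starting library
(`Pool.Agent.H197R2.PG`), in a form for vectors (`Pool.Agent.Helper29.BE.main2`).
-/

set_option autoImplicit false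

open Finset Filter Topology

namespace Pool.Agent.Results.MP_0bf1d2_nt.CommonTinyArguments

/-- The `r`-tuples of natural numbers `1 ≤ N j ≤ H` for which there is one `n` in `A` such that all the
numbers `N j - G_j(n)` are primes. -/
def tuples {r : ℕ} (G : Fin r → Polynomial ℤ) (H : ℕ) (A : Set ℕ) : Set (Fin r → ℕ) :=
  {N | (∀ j, 1 ≤ N j ∧ N j ≤ H) ∧ ∃ n ∈ A, ∀ j, ∃ q : ℕ, q.Prime ∧
    (N j : ℤ) = (G j).eval (n : ℤ) + q}

lemma tuples_finite {r : ℕ} (G : Fin r → Polynomial ℤ) (H : ℕ) (A : Set ℕ) :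
    (tuples G H A).Finite := by
  apply (Finset.finite_toSet (Fintype.piFinset (fun _ : Fin r => Icc 1 H))).subset
  rintro h ⟨h2, -⟩
  rw [mem_coe, Fintype.mem_piFinset]
  intro j
  rw [mem_Icc]
  exact h2 j

lemma tuples_mono {r : ℕ} {G : Fin r → Polynomial ℤ} {H : ℕ} {A B : Set ℕ} (h : A ⊆ B) :
    tuples G H A ⊆ tuples G H B := by
  rintro t ⟨h1, p, hp, h2⟩
  exact ⟨h1, p, h hp, h2⟩

/-- A nonconstant polynomial with positive leading coefficient is eventually positive and strictly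
increasing, and smaller than the next power. -/
lemma poly_ev (P : Polynomial ℤ) (hd : 1 ≤ P.natDegree) (hl : 0 < P.leadingCoeff) :
    ∃ n₀ : ℕ, 2 ≤ n₀ ∧ (∀ a b : ℕ, n₀ ≤ a → a < b → P.eval (a : ℤ) < P.eval (b : ℤ)) ∧
      (∀ a : ℕ, n₀ ≤ a → 1 ≤ P.eval (a : ℤ)) ∧
      (∀ a : ℕ, n₀ ≤ a → P.eval (a : ℤ) ≤ (a : ℤ) ^ (P.natDegree + 1)) := by
  set Q : Polynomial ℝ := P.map (Int.castRingHom ℝ) with hQ
  have hQd : Q.natDegree = P.natDegree :=
    Polynomial.natDegree_map_eq_of_injective (RingHom.injective_int _) P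
  have hQl : Q.leadingCoeff = (P.leadingCoeff : ℝ) :=
    Polynomial.leadingCoeff_map_of_injective (RingHom.injective_int _) P
  have hev : ∀ a : ℕ, Q.eval (a : ℝ) = ((P.eval (a : ℤ) : ℤ) : ℝ) := by
    intro a
    have h1 := Polynomial.eval_intCast_map (Int.castRingHom ℝ) P (a : ℤ)
    rw [hQ]
    exact_mod_cast h1
  have hQ0 : 0 < Q.leadingCoeff := by rw [hQl]; exact_mod_cast hl
  have hdeg : ∀ R : Polynomial ℝ, 1 ≤ R.natDegree → 0 < R.degree := fun R hR =>
    Polynomial.natDegree_pos_iff_degree_pos.1 hR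
  have t1 : Tendsto (fun x => Q.eval x) atTop atTop :=
    Q.tendsto_atTop_of_leadingCoeff_nonneg (hdeg Q (by omega)) hQ0.le
  have hQn : Q ≠ 0 := by
    intro h0
    rw [h0] at hQ0
    simp at hQ0
  have hQ'n : Q.derivative ≠ 0 := Polynomial.derivative_ne_zero.2 (by omega)
  have t2 : Tendsto (fun x => (Polynomial.X * Q.derivative).eval x) atTop atTop := by
    apply Polynomial.tendsto_atTop_of_leadingCoeff_nonneg
    · apply hdeg
      rw [Polynomial.natDegree_X_mul hQ'n]
      omega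
    · rw [Polynomial.leadingCoeff_mul, Polynomial.leadingCoeff_X, one_mul,
        Polynomial.leadingCoeff_derivative]
      positivity
  have hlt : Q.degree < (Polynomial.X ^ (P.natDegree + 1) : Polynomial ℝ).degree := by
    rw [Polynomial.degree_X_pow, Polynomial.degree_eq_natDegree hQn, hQd]
    exact_mod_cast Nat.lt_succ_self _
  have t3 : Tendsto (fun x => (Polynomial.X ^ (P.natDegree + 1) - Q).eval x) atTop atTop := by
    apply Polynomial.tendsto_atTop_of_leadingCoeff_nonneg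
    · rw [Polynomial.degree_sub_eq_left_of_degree_lt hlt, Polynomial.degree_X_pow]
      exact_mod_cast Nat.succ_pos _
    · rw [Polynomial.leadingCoeff_sub_of_degree_lt hlt, Polynomial.leadingCoeff_X_pow]
      norm_num
  obtain ⟨x₀, hx₀⟩ := eventually_atTop.1 ((t1.eventually_ge_atTop 1).and
    ((t2.eventually_ge_atTop 1).and (t3.eventually_ge_atTop 0)))
  set x₁ : ℝ := max x₀ 1 with hx₁
  have hmono : StrictMonoOn (fun x => Q.eval x) (Set.Ici x₁) := by
    apply strictMonoOn_of_deriv_pos (convex_Ici x₁) Q.continuous.continuousOn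
    intro x hx
    rw [interior_Ici] at hx
    have hx' : x₁ < x := hx
    have h1 : x₀ ≤ x := (le_max_left _ _).trans hx'.le
    have h2 : (1 : ℝ) ≤ x := (le_max_right _ _).trans hx'.le
    have h3 := (hx₀ x h1).2.1
    rw [Polynomial.eval_mul, Polynomial.eval_X] at h3
    rw [Polynomial.deriv]
    by_contra hcon
    push Not at hcon
    nlinarith
  have hge : ∀ a : ℕ, ⌈x₁⌉₊ + 2 ≤ a → x₁ ≤ (a : ℝ) := by
    intro a ha
    have h1 : x₁ ≤ (⌈x₁⌉₊ : ℝ) := Nat.le_ceil _
    have h2 : ((⌈x₁⌉₊ : ℕ) : ℝ) ≤ (a : ℝ) := by exact_mod_cast (by omega : ⌈x₁⌉₊ ≤ a)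
    linarith
  refine ⟨⌈x₁⌉₊ + 2, by omega, ?_, ?_, ?_⟩
  · intro a b ha hab
    have h1 := hmono (hge a ha) (hge b (by omega)) (by exact_mod_cast hab : (a : ℝ) < b)
    simp only [hev] at h1
    exact_mod_cast h1
  · intro a ha
    have h1 := (hx₀ (a : ℝ) ((le_max_left _ _).trans (hge a ha))).1
    rw [hev] at h1
    exact_mod_cast h1
  · intro a ha
    have h1 := (hx₀ (a : ℝ) ((le_max_left _ _).trans (hge a ha))).2.2
    rw [Polynomial.eval_sub, Polynomial.eval_pow, Polynomial.eval_X, hev] at h1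
    have h2 : ((P.eval (a : ℤ) : ℤ) : ℝ) ≤ (a : ℝ) ^ (P.natDegree + 1) := by linarith
    exact_mod_cast h2

open Pool.Agent.Helper29.BE in
theorem general (r : ℕ) (hr : 1 ≤ r) (G : Fin r → Polynomial ℤ)
    (hG : ∀ j, 1 ≤ (G j).natDegree ∧ 0 < (G j).leadingCoeff) :
    ∃ (K : ℕ) (c : ℝ) (n₀ : ℕ), 0 < c ∧ ∀ M : ℕ, n₀ ≤ M → ∀ (e : ℕ) (A : Finset ℕ),
      (∀ n ∈ A, n₀ ≤ n ∧ n ≤ M ∧ n % 2 = e % 2) → ∀ H : ℕ, M ^ K ≤ H → Real.log H ^ r ≤ #A →
      c * H ^ r / Real.log (Real.log M) ^ r ≤ ((tuples G H A).ncard : ℝ) := by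
  classical
  choose m hm2 hm3 hm4 hm5 using fun j => poly_ev (G j) (hG j).1 (hG j).2
  obtain ⟨E, hE⟩ : ∃ E : ℕ, E = ∑ j, (G j).natDegree + 1 := ⟨_, rfl⟩
  have hEj : ∀ j, (G j).natDegree + 1 ≤ E := by
    intro j
    have := single_le_sum (f := fun j => (G j).natDegree) (fun _ _ => Nat.zero_le _) (mem_univ j)
    rw [hE]
    omega
  have hmj : ∀ j, m j ≤ ∑ j, m j := fun j =>
    single_le_sum (f := m) (fun _ _ => Nat.zero_le _) (mem_univ j)
  obtain ⟨c, hc, Y₀, h⟩ := main2 r (E + 2) hr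
  have tll : Tendsto (fun x : ℕ => Real.log (Real.log (x : ℝ))) atTop atTop :=
    Real.tendsto_log_atTop.comp tLog
  obtain ⟨n₂, hn₂⟩ := eventually_atTop.1 ((tLog.eventually_ge_atTop 3).and
    (tll.eventually_ge_atTop 1))
  refine ⟨17 * (E + 1), c / 2 ^ r, ∑ j, m j + Y₀ + n₂ + 4, by positivity,
    fun M hM e A hA H hH hHA => ?_⟩
  obtain ⟨g1, g2⟩ := hn₂ M (by omega)
  have hM4 : 4 ≤ M := by omega
  have hM0 : (0 : ℝ) < M := by exact_mod_cast (by omega : 0 < M)
  -- the number `k`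
  set k : ℕ := ⌈Real.log (M : ℝ)⌉₊ with hk
  have hk1 : Real.log (M : ℝ) ≤ k := Nat.le_ceil _
  have hk2 : (k : ℝ) < Real.log M + 1 := Nat.ceil_lt_add_one (by linarith)
  have hk3 : (3 : ℝ) ≤ k := by linarith
  have hk3' : 3 ≤ k := by exact_mod_cast hk3
  have hlk0 : 0 < Real.log k := Real.log_pos (by linarith)
  have hlk : Real.log k ≤ 2 * Real.log (Real.log M) := by
    have h1 : (k : ℝ) ≤ Real.log M ^ 2 := by nlinarith
    have h2 : Real.log k ≤ Real.log (Real.log M ^ 2) := Real.log_le_log (by linarith) h1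
    rw [Real.log_pow] at h2
    exact_mod_cast h2
  set Y : ℕ := M ^ E + 1 with hY
  have hE1 : 1 ≤ E := by omega
  have hME : 1 ≤ M ^ E := Nat.one_le_pow _ _ (by omega)
  have hYM : Y ≤ M ^ (E + 1) := by
    rw [hY, pow_succ]
    have h1 : M ^ E * 2 ≤ M ^ E * M := Nat.mul_le_mul_left _ (by omega)
    omega
  have hMY : M ≤ Y := by
    rw [hY]
    have : M ^ 1 ≤ M ^ E := Nat.pow_le_pow_right (by omega) hE1
    rw [pow_one] at this
    omega
  have hYH : Y ^ 17 ≤ H := by
    refine le_trans ?_ hH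
    calc Y ^ 17 ≤ (M ^ (E + 1)) ^ 17 := Nat.pow_le_pow_left hYM 17
      _ = M ^ (17 * (E + 1)) := by rw [← pow_mul, mul_comm]
  have hMH : M ≤ H := by
    refine le_trans ?_ hH
    calc M = M ^ 1 := (pow_one M).symm
      _ ≤ M ^ (17 * (E + 1)) := Nat.pow_le_pow_right (by omega) (by omega)
  have hA1 : (1 : ℝ) ≤ #A := by
    have h1 : Real.log (M : ℝ) ≤ Real.log H := Real.log_le_log hM0 (by exact_mod_cast hMH)
    exact (one_le_pow₀ (by linarith)).trans hHA
  set δ : Fin r → ℕ := fun j => if (G j).eval (e : ℤ) % 2 = 0 then 1 else 0 with hδ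
  have hδ1 : ∀ j, δ j ≤ 1 := by
    intro j
    simp only [hδ]
    split_ifs <;> omega
  set a : Fin r → ℕ → ℕ := fun j t => ((G j).eval (t : ℤ)).toNat + δ j with ha
  have hval : ∀ j, ∀ t ∈ A, ((((G j).eval (t : ℤ)).toNat : ℕ) : ℤ) = (G j).eval (t : ℤ) := by
    intro j t ht
    obtain ⟨h1, h2, h3⟩ := hA t ht
    have h4 := hm4 j t (by have := hmj j; omega)
    exact Int.toNat_of_nonneg (by omega)
  have hpar : ∀ j, ∀ t ∈ A, (G j).eval (t : ℤ) % 2 = (G j).eval (e : ℤ) % 2 := by
    intro j t ht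
    obtain ⟨h1, h2, h3⟩ := hA t ht
    have h4 := Polynomial.sub_dvd_eval_sub (t : ℤ) (e : ℤ) (G j)
    have h5 : (2 : ℤ) ∣ (t : ℤ) - e := by omega
    have h6 := h5.trans h4
    omega
  have h1 := h Y (by omega) H hYH k A a (fun _ => false) hk3' (by
      intro j t ht t' ht' heq
      rw [mem_coe] at ht ht'
      have e1 : ((G j).eval (t : ℤ)).toNat + δ j = ((G j).eval (t' : ℤ)).toNat + δ j := heq
      have e2 := hval j t ht
      have e3 := hval j t' ht'
      have e4 : (G j).eval (t : ℤ) = (G j).eval (t' : ℤ) := by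
        rw [← e2, ← e3]
        exact_mod_cast (by omega : ((G j).eval (t : ℤ)).toNat = ((G j).eval (t' : ℤ)).toNat)
      have hj := hmj j
      have b1 := (hA t ht).1
      have b2 := (hA t' ht').1
      rcases lt_trichotomy t t' with h5 | h5 | h5
      · have := hm3 j t t' (by omega) h5
        omega
      · exact h5
      · have := hm3 j t' t (by omega) h5
        omega) (by
      intro j t ht
      have e2 := hval j t ht
      have e3 := hpar j t ht
      obtain ⟨b1, b2, b3⟩ := hA t ht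
      have hj := hmj j
      constructor
      · change Odd (((G j).eval (t : ℤ)).toNat + δ j)
        rw [Nat.odd_iff]
        simp only [hδ]
        split_ifs with h6 <;> omega
      · change ((G j).eval (t : ℤ)).toNat + δ j ≤ M ^ E + 1
        have e4 := hm5 j t (by omega)
        rw [← e2] at e4
        have e5 : ((G j).eval (t : ℤ)).toNat ≤ t ^ ((G j).natDegree + 1) := by exact_mod_cast e4
        have e6 : t ^ ((G j).natDegree + 1) ≤ M ^ E :=
          (Nat.pow_le_pow_left b2 _).trans (Nat.pow_le_pow_right (by omega) (hEj j))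
        have := hδ1 j
        omega) hHA (by
      have e1 : 2 * (Y : ℝ) ≤ (M : ℝ) ^ (E + 2) := by
        have e2 : 2 * Y ≤ M ^ (E + 2) := by
          rw [hY, pow_add]
          have h2 : M ^ E * 4 ≤ M ^ E * M ^ 2 := Nat.mul_le_mul_left _ (by nlinarith)
          omega
        exact_mod_cast e2
      have e3 : (M : ℝ) ^ (E + 2) ≤ Real.exp (((E + 2 : ℕ) : ℝ) * k) := by
        rw [Real.exp_nat_mul]
        apply pow_le_pow_left₀ hM0.le
        calc (M : ℝ) = Real.exp (Real.log M) := (Real.exp_log hM0).symm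
          _ ≤ Real.exp k := Real.exp_le_exp.2 hk1
      calc 2 * (Y : ℝ) ≤ Real.exp (((E + 2 : ℕ) : ℝ) * k) := e1.trans e3
        _ = Real.exp (((E + 2 : ℕ) : ℝ) * k) * 1 := (mul_one _).symm
        _ ≤ Real.exp (((E + 2 : ℕ) : ℝ) * k) * #A :=
            mul_le_mul_of_nonneg_left hA1 (Real.exp_pos _).le)
  have hfin : (#(Sh2 H A a (fun _ => false)) : ℝ) ≤ ((tuples G H A).ncard : ℝ) := by
    apply Nat.cast_le.2
    have hinj : Set.InjOn (fun (N : Fin r → ℕ) (j : Fin r) => N j - δ j)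
        (Sh2 H A a (fun _ => false) : Set (Fin r → ℕ)) := by
      intro N hN N' hN' heq
      rw [mem_coe] at hN hN'
      unfold Sh2 at hN hN'
      rw [mem_filter, Fintype.mem_piFinset] at hN hN'
      funext j
      have e1 := congrFun heq j
      have e2 := hN.1 j
      have e3 := hN'.1 j
      rw [mem_filter, mem_Icc] at e2 e3
      have e4 := hδ1 j
      simp only at e1
      omega
    rw [← card_image_of_injOn hinj, ← Set.ncard_coe_finset]
    apply Set.ncard_le_ncard _ (tuples_finite G H A)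
    intro N hN
    rw [mem_coe, mem_image] at hN
    obtain ⟨N', hN', rfl⟩ := hN
    unfold Sh2 at hN'
    rw [mem_filter, Fintype.mem_piFinset] at hN'
    obtain ⟨b1, t, ht, b2⟩ := hN'
    have b1' : ∀ j, 1 ≤ N' j ∧ N' j ≤ H ∧ Even (N' j) := fun j => by
      have b3 := b1 j
      rw [mem_filter, mem_Icc] at b3
      exact ⟨b3.1.1, b3.1.2, b3.2⟩
    refine ⟨fun j => ?_, t, mem_coe.2 ht, fun j => ?_⟩
    · obtain ⟨b3, b4, b5⟩ := b1' j
      rw [Nat.even_iff] at b5
      have := hδ1 j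
      constructor
      · change 1 ≤ N' j - δ j
        omega
      · change N' j - δ j ≤ H
        omega
    · have b3 := b2 j
      rw [if_neg (by simp)] at b3
      obtain ⟨b4, b5⟩ := b3
      change 2 * (((G j).eval (t : ℤ)).toNat + δ j) < N' j at b4
      change (N' j - (((G j).eval (t : ℤ)).toNat + δ j)).Prime at b5
      refine ⟨_, b5, ?_⟩
      have e2 := hval j t ht
      have b6 := (b1' j).1
      have := hδ1 j
      change ((N' j - δ j : ℕ) : ℤ) = _
      omega
  refine le_trans ?_ (h1.trans hfin)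
  have hll0 : 0 < Real.log (Real.log (M : ℝ)) := by linarith
  rw [div_mul_eq_mul_div, div_div, div_le_div_iff₀ (by positivity) (by positivity)]
  have h3 : Real.log k ^ r ≤ (2 * Real.log (Real.log M)) ^ r := pow_le_pow_left₀ hlk0.le hlk r
  calc c * (H : ℝ) ^ r * Real.log k ^ r ≤ c * (H : ℝ) ^ r * (2 * Real.log (Real.log M)) ^ r := by
        gcongr
    _ = c * (H : ℝ) ^ r * (2 ^ r * Real.log (Real.log M) ^ r) := by rw [mul_pow]

/-- the primes between `n₀` and `M` -/
lemma primes_many (n₀ : ℕ) : ∀ᶠ M : ℕ in atTop, (M : ℝ) / (2 * Real.log M) ≤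
    (#((Icc (n₀ + 3) M).filter Nat.Prime) : ℝ) := by
  have h1 := Pool.Agent.TH110.Zig.pnt_window 1 1 (1 / 4) (by norm_num) (by norm_num)
  have h5 : ∀ᶠ M : ℕ in atTop, (n₀ + 4) * Real.log M ≤ (1 / 4) * M := by
    have h6 := Real.isLittleO_log_id_atTop.bound (by positivity : (0 : ℝ) < 1 / (4 * (n₀ + 4)))
    filter_upwards [tendsto_natCast_atTop_atTop.eventually h6, eventually_ge_atTop 1] with M h7 h8
    have h9 : (0 : ℝ) ≤ Real.log M := Real.log_natCast_nonneg M
    rw [Real.norm_of_nonneg h9] at h7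
    simp only [id, Real.norm_natCast] at h7
    have h10 : (0 : ℝ) < n₀ + 4 := by positivity
    calc (n₀ + 4) * Real.log M ≤ (n₀ + 4) * (1 / (4 * (n₀ + 4)) * M) := by gcongr
      _ = (1 / 4) * M := by field_simp
  filter_upwards [tendsto_natCast_atTop_atTop.eventually h1, h5, eventually_ge_atTop 3] with M h2 h6 hM
  have hM3 : (3 : ℝ) ≤ M := by exact_mod_cast hM
  have hlog : 0 < Real.log (M : ℝ) := Real.log_pos (by linarith)
  have a1 := h2 (M : ℝ) (by linarith) (by linarith)
  rw [Nat.floor_natCast] at a1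
  have b1 := (abs_le.1 a1).1
  have h3 : Nat.primeCounting M ≤ #((Icc (n₀ + 3) M).filter Nat.Prime) + (n₀ + 3) := by
    rw [Nat.primeCounting, Nat.primeCounting', Nat.count_eq_card_filter_range]
    refine le_trans (card_le_card (?_ : _ ⊆ ((Icc (n₀ + 3) M).filter Nat.Prime) ∪ range (n₀ + 3)))
      ((card_union_le _ _).trans (by rw [card_range]))
    intro p hp
    rw [mem_filter, mem_range] at hp
    rw [mem_union, mem_filter, mem_Icc, mem_range]
    by_cases h : p < n₀ + 3
    · exact Or.inr h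
    · exact Or.inl ⟨⟨by omega, by omega⟩, hp.2⟩
  have h4 : (Nat.primeCounting M : ℝ) ≤ #((Icc (n₀ + 3) M).filter Nat.Prime) + (n₀ + 3) := by
    exact_mod_cast h3
  have e1 : (M : ℝ) / (2 * Real.log M) = (M / Real.log M) / 2 := by field_simp
  have h7 : (n₀ + 4 : ℝ) ≤ (M / Real.log M) / 4 := by
    rw [le_div_iff₀ (by norm_num), le_div_iff₀ hlog]
    linarith
  rw [e1]
  linarith

/-- **Common very small arguments.** Let `r ≥ 1` and let `G_1, ..., G_r` be nonconstant integer
polynomials with positive leading coefficients. There are `K`, `c > 0` and `n₀` such that for all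
`M ≥ n₀` and `H ≥ M ^ K`: (1) for every set `A` of integers `n` of the same parity, `n₀ ≤ n ≤ M`, with
`(log H) ^ r ≤ |A|`, at least `c H ^ r / (log log M) ^ r` of the `r`-tuples `(N_1, ..., N_r)` of natural
numbers up to `H` have one `n` in `A` such that all the numbers `N_j - G_j(n)` are prime; (2) if
`(log H) ^ r ≤ M / (2 log M)`, this holds with a prime `n ≤ M`. -/
theorem result (r : ℕ) (hr : 1 ≤ r) (G : Fin r → Polynomial ℤ)
    (hG : ∀ j, 1 ≤ (G j).natDegree ∧ 0 < (G j).leadingCoeff) :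
    ∃ (K : ℕ) (c : ℝ) (n₀ : ℕ), 0 < c ∧ ∀ M : ℕ, n₀ ≤ M → ∀ H : ℕ, M ^ K ≤ H →
      (∀ (e : ℕ) (A : Finset ℕ), (∀ n ∈ A, n₀ ≤ n ∧ n ≤ M ∧ n % 2 = e % 2) →
        Real.log H ^ r ≤ #A →
        c * H ^ r / Real.log (Real.log M) ^ r ≤ ((tuples G H A).ncard : ℝ)) ∧
      (Real.log H ^ r ≤ M / (2 * Real.log M) →
        c * H ^ r / Real.log (Real.log M) ^ r ≤
          ((tuples G H {n | n.Prime ∧ n ≤ M}).ncard : ℝ)) := by
  classical
  obtain ⟨K, c, n₁, hc, h⟩ := general r hr G hG
  obtain ⟨n₂, hn₂⟩ := eventually_atTop.1 (primes_many n₁)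
  refine ⟨K, c, n₁ + n₂, hc, fun M hM H hH => ⟨fun e A hA hHA => ?_, fun hHM => ?_⟩⟩
  · exact h M (by omega) e A (fun n hn => ⟨by have := (hA n hn).1; omega, (hA n hn).2⟩) H hH hHA
  · have g1 := hn₂ M (by omega)
    refine (h M (by omega) 1 ((Icc (n₁ + 3) M).filter Nat.Prime) (fun n hn => ?_) H hH
      (hHM.trans g1)).trans ?_
    · rw [mem_filter, mem_Icc] at hn
      refine ⟨by omega, hn.1.2, ?_⟩
      have h1 := hn.2.odd_of_ne_two (by omega)
      rw [Nat.odd_iff] at h1
      omega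
    · apply Nat.cast_le.2
      apply Set.ncard_le_ncard _ (tuples_finite G H _)
      apply tuples_mono
      intro n hn
      rw [mem_coe, mem_filter, mem_Icc] at hn
      exact ⟨hn.2, hn.1.2⟩

end Pool.Agent.Results.MP_0bf1d2_nt.CommonTinyArguments
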