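import Pool.Agent.V11249.NP.Fix

/-!
# Arithmetic progressions of arguments in Schinzel's Goldbach-type hypothesis, uniformly

For all `F_1, …, F_g, G` of bounded degrees and all `M`, whatever their size, consider the `n` for which
`F_1(n), …, F_g(n), M - G(n)` are all prime. The number of these `n` in a window `(A, A + N]` has the
expected order of magnitude `N V` if and only if the number of their `k`-term arithmetic progressions with
differences up to `D` has the expected order of magnitude `N D V ^ k`, for all `D` between a power of `log N` and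
`N`; the constants depend only on `k`, `g` and the bound for the degrees. The same holds for all sets of `n` at which the values have no
prime factor `≤ N ^ κ` (Szemerédi's theorem relative to these sets, and its converse).
-/

set_option autoImplicit false

open Finset Polynomial Pool.Agent.V11249.NP

namespace Pool.Agent.Results.MP_0bf1d2_nt.ProgressionsOfArguments

/-- `F_1, …, F_g` and `G`, with degrees between `1` and `h` -/
structure Data (g h : ℕ) where
  F : Fin g → ℤ[X]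
  G : ℤ[X]
  degF : ∀ i, 1 ≤ (F i).natDegree ∧ (F i).natDegree ≤ h
  degG : 1 ≤ G.natDegree ∧ G.natDegree ≤ h

/-- `p` divides `F_1(n) ⋯ F_g(n) (M - G(n))` for the prime `p` -/
def Divides {g h : ℕ} (f : Data g h) (M : ℕ) (p n : ℕ) : Prop :=
  (∃ i, (p : ℤ) ∣ (f.F i).eval (n : ℤ)) ∨ (p : ℤ) ∣ (M : ℤ) - f.G.eval (n : ℤ)

/-- `F_1 ⋯ F_g (M - G)` has no fixed prime divisor -/
def Admissible {g h : ℕ} (f : Data g h) (M : ℕ) : Prop :=
  ∀ p : ℕ, p.Prime → ∃ n : ℕ, ¬ Divides f M p n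

open Classical in
/-- the number `ω_M(p)` of the residues `n` modulo `p` with `p ∣ F_1(n) ⋯ F_g(n) (M - G(n))` -/
noncomputable def omega {g h : ℕ} (f : Data g h) (M : ℕ) (p : ℕ) : ℕ :=
  ((range p).filter (fun m => Divides f M p m)).card

/-- the sieve product over the primes `p ≤ N ^ κ` -/
noncomputable def V {g h : ℕ} (f : Data g h) (M : ℕ) (κ : ℝ) (N : ℕ) : ℝ :=
  ∏ p ∈ (Icc 1 ⌊(N : ℝ) ^ κ⌋₊).filter Nat.Prime, (1 - (omega f M p : ℝ) / p)

open Classical in
/-- the integers `n` in `(A, A + N]` for which `F_1(n), …, F_g(n)` and `M - G(n)` are primes (up to the sign) -/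
noncomputable def P {g h : ℕ} (f : Data g h) (M : ℕ) (A N : ℕ) : Finset ℕ :=
  (Ioc A (A + N)).filter
    (fun n : ℕ => (∀ i, ((f.F i).eval (n : ℤ)).natAbs.Prime) ∧ ((M : ℤ) - f.G.eval (n : ℤ)).natAbs.Prime)

/-- all prime factors of `F_1(n) ⋯ F_g(n) (M - G(n))` are larger than `N ^ κ` -/
def Rough {g h : ℕ} (f : Data g h) (M : ℕ) (κ : ℝ) (N n : ℕ) : Prop :=
  ∀ p : ℕ, p.Prime → Divides f M p n → (N : ℝ) ^ κ < p

open Classical in
/-- The number of the progressions `n, n + d, …, n + (k - 1) d` in `S` with `1 ≤ d ≤ D`. -/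
noncomputable def AP (k D : ℕ) (S : Finset ℕ) : ℕ :=
  ((S ×ˢ Icc 1 D).filter (fun q => ∀ j < k, q.1 + j * q.2 ∈ S)).card

/-- the system -/
noncomputable def S {g h : ℕ} (f : Data g h) (M : ℕ) : Fin (g + 1) → ℤ[X] :=
  Fin.cons (C (M : ℤ) - f.G) f.F

theorem ev0 {g h : ℕ} (f : Data g h) (M : ℕ) (n : ℤ) : (S f M 0).eval n = (M : ℤ) - f.G.eval n := by
  simp [S]

theorem evS {g h : ℕ} (f : Data g h) (M : ℕ) (i : Fin g) (n : ℤ) : (S f M i.succ).eval n = (f.F i).eval n := by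
  simp [S]

theorem div_iff {g h : ℕ} (f : Data g h) (M : ℕ) (p n : ℕ) :
    (∃ i, (p : ℤ) ∣ (S f M i).eval (n : ℤ)) ↔ Divides f M p n := by
  unfold Divides
  rw [Fin.exists_fin_succ, ev0]
  simp only [evS]
  exact or_comm

theorem adm {g h : ℕ} {f : Data g h} {M : ℕ} (ha : Admissible f M) :
    ∀ p : ℕ, p.Prime → ∃ m : ℕ, ∀ i, ¬ (p : ℤ) ∣ (S f M i).eval (m : ℤ) := by
  intro p hp
  obtain ⟨m, hm⟩ := ha p hp
  refine ⟨m, fun i hi => hm ?_⟩
  exact (div_iff f M p m).1 ⟨i, hi⟩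

theorem us {g h : ℕ} {f : Data g h} {M : ℕ} (ha : Admissible f M) : UniG.US h (S f M) := by
  refine ⟨fun i => ?_, adm ha⟩
  refine Fin.cases ?_ (fun i => ?_) i
  · have e : (S f M 0) = C (M : ℤ) - f.G := by simp [S]
    have e2 : (C (M : ℤ) - f.G).natDegree = f.G.natDegree := by
      rw [← neg_sub, natDegree_neg, natDegree_sub_C]
    rw [e, e2]
    exact f.degG
  · have e : (S f M i.succ) = f.F i := by simp [S]
    rw [e]
    exact f.degF i

theorem V_eq {g h : ℕ} (f : Data g h) (M : ℕ) (κ : ℝ) (N : ℕ) : V f M κ N = UniG.V (S f M) κ N := by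
  classical
  unfold V
  refine UniG.V_eq (S f M) κ N _ (fun p _ => ?_)
  unfold omega
  congr 1
  ext x
  rw [UniG.mem_ZZ, mem_filter, mem_range, div_iff]

/-- For every `k ≥ 1`, with constants which do not depend on the polynomials (of degrees between `1` and `h`), nor on `M` nor on the window:
(1) for `κ > 0` a set `S` of integers of `(A, A + N]` at which the values have no prime factor `≤ N ^ κ` contains at most
`C N D V ^ k` progressions of length `k` with differences at most `D`;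
(2) it contains at least `c₀ N D V ^ k` of them if it has at least `δ N V` elements, and it has at least
`c₀ N V` elements if it contains at least `δ N D V ^ k` of them, for all `D` between `log ^ B N` and `N`;
(3), (4) the same for the set `P` (with `κ = 1/4` in `V`). -/
theorem result (g h : ℕ) (k : ℕ) (hk : 1 ≤ k) :
    (∀ κ : ℝ, 0 < κ → ∃ C : ℝ, 0 < C ∧ ∃ B N₀ : ℕ, ∀ (f : Data g h) (M : ℕ), Admissible f M → ∀ N A D : ℕ,
      N₀ ≤ N → Real.log N ^ B ≤ D → ∀ S : Finset ℕ, S ⊆ Ioc A (A + N) → (∀ n ∈ S, Rough f M κ N n) →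
        (AP k D S : ℝ) ≤ C * (N * D * V f M κ N ^ k)) ∧
    (∀ κ δ : ℝ, 0 < κ → 0 < δ → ∃ c₀ : ℝ, 0 < c₀ ∧ ∃ B N₀ : ℕ, ∀ (f : Data g h) (M : ℕ), Admissible f M → ∀ N A D : ℕ,
      N₀ ≤ N → Real.log N ^ B ≤ D → D ≤ N → ∀ S : Finset ℕ, S ⊆ Ioc A (A + N) →
        (∀ n ∈ S, Rough f M κ N n) →
        (δ * (N * V f M κ N) ≤ S.card → c₀ * (N * D * V f M κ N ^ k) ≤ AP k D S) ∧
        (δ * (N * D * V f M κ N ^ k) ≤ AP k D S → c₀ * (N * V f M κ N) ≤ S.card)) ∧
    (∃ C : ℝ, 0 < C ∧ ∃ B N₀ : ℕ, ∀ (f : Data g h) (M : ℕ), Admissible f M → ∀ N A D : ℕ, N₀ ≤ N →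
      Real.log N ^ B ≤ D → (AP k D (P f M A N) : ℝ) ≤ C * (N * D * V f M (1 / 4) N ^ k)) ∧
    (∀ δ : ℝ, 0 < δ → ∃ c₀ : ℝ, 0 < c₀ ∧ ∃ B N₀ : ℕ, ∀ (f : Data g h) (M : ℕ), Admissible f M → ∀ N A D : ℕ, N₀ ≤ N →
      Real.log N ^ B ≤ D → D ≤ N →
      (δ * (N * V f M (1 / 4) N) ≤ (P f M A N).card →
        c₀ * (N * D * V f M (1 / 4) N ^ k) ≤ AP k D (P f M A N)) ∧
      (δ * (N * D * V f M (1 / 4) N ^ k) ≤ AP k D (P f M A N) →
        c₀ * (N * V f M (1 / 4) N) ≤ (P f M A N).card)) := by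
  obtain ⟨a1, a2, a3, a4⟩ := UniG.transfer (g + 1) h (fun q : Data g h × ℕ => S q.1 q.2)
    (fun q => Admissible q.1 q.2) (fun q hq => us hq) (fun q => Rough q.1 q.2) (fun q => P q.1 q.2)
    (fun q => V q.1 q.2) (fun q _ κ N n hr i p hp hd => hr p hp ((div_iff q.1 q.2 p n).1 ⟨i, hd⟩))
    (fun q _ A N n => by
      unfold P
      rw [mem_filter, mem_Ioc, Fin.forall_fin_succ, ev0]
      simp only [evS]
      tauto)
    (fun q _ κ N => V_eq q.1 q.2 κ N) k hk
  refine ⟨?_, ?_, ?_, ?_⟩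
  · intro κ hκ
    obtain ⟨C, hC, B, N₀, h⟩ := a1 κ hκ
    exact ⟨C, hC, B, N₀, fun f M => h (f, M)⟩
  · intro κ δ hκ hδ
    obtain ⟨C, hC, B, N₀, h⟩ := a2 κ δ hκ hδ
    exact ⟨C, hC, B, N₀, fun f M => h (f, M)⟩
  · obtain ⟨C, hC, B, N₀, h⟩ := a3
    exact ⟨C, hC, B, N₀, fun f M => h (f, M)⟩
  · intro δ hδ
    obtain ⟨C, hC, B, N₀, h⟩ := a4 δ hδ
    exact ⟨C, hC, B, N₀, fun f M => h (f, M)⟩

end Pool.Agent.Results.MP_0bf1d2_nt.ProgressionsOfArguments
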