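import Pool.Agent.H225.VL

/-!
# Schinzel's Goldbach-type hypothesis for arguments with restricted digits

Let `F_1, …, F_g, G` be fixed polynomials with integer coefficients, `G` of degree at least two and with
positive leading coefficient.  Let `b ≥ 2` be a base and let the digits of an integer `n < b^K` be restricted: the `i`-th digit belongs to a set `A i`, where the sets
`A i` are arbitrary, depend on the place `i < K`, and have the only property that the number `∏ |A i|` of
these integers is at least `e^{-δK} b^K`, where the constant `δ > 0` does not depend on `b`.  (For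
example one digit may be excluded at every place if `b` is large; or a positive proportion of the digits
may be fixed.)  Let `N ≤ b^{DK}` be any integer such that `N > G(n)` for the `n < b^K` and
`F_1 ⋯ F_g (N - G)` has no fixed prime divisor.  The number of these `n` for which all of
`F_1(n), …, F_g(n), N - G(n)` are prime should have the order of magnitude `S(N) ∏ |A i| / K^{g+1}` (if
the last digit can be chosen such that all values are prime to `b`), where `S(N)` is the partial product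
over the primes `p ≤ b^K` of the singular series of the question.

We show that this is an upper bound, and a lower bound for the number of the `n` such that
`F_1(n), …, F_g(n), N - G(n)` have at most `r` prime factors, all of them larger than `b^{K/r}`,
uniformly in `N` and in the sets of digits.

The method is a Brun–Hooley sieve with weights, whose level of distribution is obtained from the Fourier
transform of the set of the integers with restricted digits at rationals (large sieve in blocks of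
digits), see `Pool/Agent/Y816/PD`.
-/

set_option autoImplicit false

namespace Pool.Agent.Results.MP_0bf1d2_nt.RestrictedDigits

open Finset Filter Polynomial

/-- The product `F_1(n) ⋯ F_g(n) (N - G(n))`. -/
noncomputable def value {g : ℕ} (F : Fin g → ℤ[X]) (G : ℤ[X]) (N n : ℕ) : ℤ :=
  (∏ i, (F i).eval (n : ℤ)) * ((N : ℤ) - G.eval (n : ℤ))

/-- `F_1 ⋯ F_g (N - G)` has no fixed prime divisor. -/
def NoFixed {g : ℕ} (F : Fin g → ℤ[X]) (G : ℤ[X]) (N : ℕ) : Prop :=
  ∀ p : ℕ, p.Prime → ∃ n : ℕ, ¬ (p : ℤ) ∣ value F G N n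

open Classical in
/-- The number of the residues `n` modulo `p` for which `p` divides `F_1(n) ⋯ F_g(n) (N - G(n))`. -/
noncomputable def ω {g : ℕ} (F : Fin g → ℤ[X]) (G : ℤ[X]) (N p : ℕ) : ℕ :=
  ((range p).filter (fun n : ℕ => (p : ℤ) ∣ value F G N n)).card

/-- The partial product over the primes `p ≤ x` of the singular series. -/
noncomputable def S {g : ℕ} (F : Fin g → ℤ[X]) (G : ℤ[X]) (N x : ℕ) : ℝ :=
  ∏ p ∈ (Icc 1 x).filter Nat.Prime, (1 - (ω F G N p : ℝ) / p) * ((1 - 1 / (p : ℝ))⁻¹) ^ (g + 1)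

open Classical in
/-- The number of the `n < b ^ K` in `T` whose `i`-th digit in base `b` belongs to `A i` for all
`i < K`. -/
noncomputable def count (b K : ℕ) (A : ℕ → Finset ℕ) (T : Set ℕ) : ℕ :=
  ((range (b ^ K)).filter (fun n => (∀ i < K, n / b ^ i % b ∈ A i) ∧ n ∈ T)).card

/-- The number of choices of the digits. -/
noncomputable def choices (K : ℕ) (A : ℕ → Finset ℕ) : ℝ := ∏ i ∈ range K, ((A i).card : ℝ)

/-- `m` has at most `r` prime factors, counted with multiplicity, and all of them are larger than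
`z ^ (1 / r)`. -/
def AlmostPrime (r z m : ℕ) : Prop :=
  (∀ p : ℕ, p.Prime → p ∣ m → z < p ^ r) ∧ m.primeFactorsList.length ≤ r

open Pool.Agent.Y816.PD (WG NA ND ND_sub TP TP_dvd WG_bounds)

/-- the values of all the polynomials -/
noncomputable def vals {g : ℕ} (F : Fin g → ℤ[X]) (G : ℤ[X]) (N : ℕ) : Fin (g + 1) → ℕ → ℤ :=
  Fin.snoc (fun i n => (F i).eval (n : ℤ)) (fun n => (N : ℤ) - G.eval (n : ℤ))

lemma vals_cast {g : ℕ} (F : Fin g → ℤ[X]) (G : ℤ[X]) (N : ℕ) (i : Fin g) (n : ℕ) :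
    vals F G N i.castSucc n = (F i).eval (n : ℤ) := by
  unfold vals
  rw [Fin.snoc_castSucc]

lemma vals_last {g : ℕ} (F : Fin g → ℤ[X]) (G : ℤ[X]) (N n : ℕ) :
    vals F G N (Fin.last g) n = (N : ℤ) - G.eval (n : ℤ) := by
  unfold vals
  rw [Fin.snoc_last]

lemma prod_vals {g : ℕ} (F : Fin g → ℤ[X]) (G : ℤ[X]) (N n : ℕ) :
    ∏ i, vals F G N i n = value F G N n := by
  rw [Fin.prod_univ_castSucc]
  unfold value
  rw [vals_last]
  congr 1
  exact prod_congr rfl fun i _ => vals_cast F G N i n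

open Classical in
/-- the product of the `1 - 1 / p` -/
lemma M_eq (x : ℕ) : WG (TP {0} 0) x = ∏ p ∈ (Icc 1 x).filter Nat.Prime, (1 - 1 / (p : ℝ)) := by
  unfold WG
  refine prod_congr rfl fun p hp => ?_
  have hpp := (mem_filter.1 hp).2
  have e : (range p).filter (fun n : ℕ => (p : ℤ) ∣ TP {0} 0 n) = {0} := by
    ext n
    rw [mem_filter, mem_range, mem_singleton, TP_dvd _ _ _ hpp]
    constructor
    · rintro ⟨hn, h, hh, hd⟩
      rw [mem_singleton] at hh
      subst hh
      exact Nat.eq_zero_of_dvd_of_lt (by simpa using hd) hn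
    · rintro rfl
      exact ⟨hpp.pos, 0, by simp, by simp⟩
  have e2 : ((range p).filter (fun n : ℕ => (p : ℤ) ∣ TP {0} 0 n)).card = 1 := by
    rw [e, card_singleton]
  simp only [e2, Nat.cast_one]

lemma WG_eq {g : ℕ} (F : Fin g → ℤ[X]) (G : ℤ[X]) (N x : ℕ) :
    WG (fun n => ∏ i, vals F G N i n) x = S F G N x * WG (TP {0} 0) x ^ (g + 1) := by
  classical
  rw [M_eq, ← prod_pow]
  unfold WG S
  rw [← prod_mul_distrib]
  refine prod_congr rfl fun p hp => ?_
  have hpp := (mem_filter.1 hp).2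
  have hp1 : (1 : ℝ) < p := by exact_mod_cast hpp.one_lt
  have h1 : (1 : ℝ) - 1 / p ≠ 0 := by
    have : (1 : ℝ) / p < 1 := by rw [div_lt_one (by linarith)]; exact hp1
    linarith
  rw [mul_assoc, ← mul_pow, inv_mul_cancel₀ h1, one_pow, mul_one]
  unfold ω
  simp only [prod_vals]

lemma S_nonneg {g : ℕ} (F : Fin g → ℤ[X]) (G : ℤ[X]) (N x : ℕ) : 0 ≤ S F G N x := by
  classical
  unfold S
  refine prod_nonneg fun p hp => ?_
  have hpp := (mem_filter.1 hp).2
  have hp1 : (1 : ℝ) < p := by exact_mod_cast hpp.one_lt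
  have h2 : (1 : ℝ) / p < 1 := by rw [div_lt_one (by linarith)]; exact hp1
  refine mul_nonneg ?_ (pow_nonneg (inv_nonneg.2 (by linarith)) _)
  rw [sub_nonneg, div_le_one (by linarith)]
  have h1 : ω F G N p ≤ p := by
    unfold ω
    have := card_filter_le (range p) (fun n : ℕ => (p : ℤ) ∣ value F G N n)
    rwa [card_range] at this
  exact_mod_cast h1

lemma abs_eval_le (P : ℤ[X]) : ∃ M : ℕ, ∀ d : ℕ, P.natDegree ≤ d → ∀ m : ℕ,
    (P.eval (m : ℤ)).natAbs ≤ M * (m + 1) ^ d := by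
  refine ⟨∑ j ∈ range (P.natDegree + 1), (P.coeff j).natAbs, fun d hd m => ?_⟩
  rw [eval_eq_sum_range]
  refine (Int.natAbs_sum_le _ _).trans ?_
  rw [sum_mul]
  refine sum_le_sum fun j hj => ?_
  rw [Int.natAbs_mul, Int.natAbs_pow, Int.natAbs_natCast]
  refine Nat.mul_le_mul_left _ ((Nat.pow_le_pow_left (Nat.le_succ m) j).trans
    (Nat.pow_le_pow_right (Nat.succ_pos m) ?_))
  have := mem_range.1 hj
  omega

/-- **Schinzel's Goldbach-type hypothesis for arguments with restricted digits.** -/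
theorem result (g D : ℕ) (F : Fin g → ℤ[X]) (G : ℤ[X]) (_hG : 2 ≤ G.natDegree)
    (_hGl : 0 < G.leadingCoeff) :
    ∃ δ : ℝ, 0 < δ ∧ ∃ r₀ : ℕ, 2 ≤ r₀ ∧ ∀ r : ℕ, r₀ ≤ r → ∀ b : ℕ, 2 ≤ b →
      ∃ κ C : ℝ, 0 < κ ∧ 0 < C ∧
      ∀ᶠ K : ℕ in atTop, ∀ N : ℕ, N ≤ b ^ (D * K) → NoFixed F G N →
        (∀ n : ℕ, n < b ^ K → G.eval (n : ℤ) < N) →
        ∀ A : ℕ → Finset ℕ, (∀ i < K, A i ⊆ range b) →
        (b : ℝ) ^ K ≤ Real.exp (δ * K) * choices K A →
        ((∃ d ∈ A 0, (value F G N d).natAbs.Coprime b) → (∃ d ∈ A (K - 1), d ≠ 0) →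
          κ * choices K A * S F G N (b ^ K) / (K : ℝ) ^ (g + 1) ≤ count b K A {n | b ^ (K - 1) ≤ n ∧
            (∀ i, AlmostPrime r (b ^ K) ((F i).eval (n : ℤ)).natAbs) ∧
            AlmostPrime r (b ^ K) ((N : ℤ) - G.eval (n : ℤ)).natAbs}) ∧
        (count b K A {n | (∀ i, ((F i).eval (n : ℤ)).natAbs.Prime ∧
              n < ((F i).eval (n : ℤ)).natAbs ^ 2) ∧
            ((N : ℤ) - G.eval (n : ℤ)).natAbs.Prime ∧
            n < ((N : ℤ) - G.eval (n : ℤ)).natAbs ^ 2} : ℝ) ≤
          C * choices K A * S F G N (b ^ K) / (K : ℝ) ^ (g + 1) := by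
  classical
  -- degrees and sizes
  obtain ⟨d, hd1, hdF, hdG⟩ : ∃ d : ℕ, 1 ≤ d ∧ (∀ i, (F i).natDegree ≤ d) ∧ G.natDegree ≤ d := by
    refine ⟨∑ i, (F i).natDegree + G.natDegree + 1, by omega, fun i => ?_, by omega⟩
    have := single_le_sum (f := fun i => (F i).natDegree) (fun _ _ => Nat.zero_le _) (mem_univ i)
    omega
  choose MF hMF using fun i => abs_eval_le (F i)
  obtain ⟨MG, hMG⟩ := abs_eval_le G
  obtain ⟨M, hM1, hM2⟩ : ∃ M : ℕ, (∀ i, MF i ≤ M) ∧ MG ≤ M := by
    refine ⟨∑ i, MF i + MG, fun i => ?_, by omega⟩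
    have := single_le_sum (f := MF) (fun _ _ => Nat.zero_le _) (mem_univ i)
    omega
  obtain ⟨δ, hδ, r₀, hr₀, h⟩ := Pool.Agent.H225.DG.gen (g + 1) d (D + 2 + 2 * d) (by omega) hd1
  refine ⟨δ, hδ, r₀, hr₀, fun r hr b hb => ?_⟩
  obtain ⟨κ, C, hκ, hC, h1⟩ := h r hr b hb
  obtain ⟨v, Cv, hv, hCv, hW⟩ := WG_bounds {0} (fun p hp => ⟨1, fun h hh => by
    rw [mem_singleton] at hh
    subst hh
    exact fun hd => hp.one_lt.ne' (Nat.dvd_one.1 hd)⟩) 1 (by simp) b hb
  refine ⟨κ * v ^ (g + 1), C * Cv ^ (g + 1), by positivity, by positivity, ?_⟩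
  filter_upwards [h1, hW, eventually_ge_atTop (M + 2)] with K hK hWK hKM N hN hfix hpos A hA hprod
  have hK0 : (0 : ℝ) < K := by exact_mod_cast (by omega : 0 < K)
  have hMb : M + 2 ≤ b ^ K := by
    have h2 : K < 2 ^ K := Nat.lt_two_pow_self
    have h3 : 2 ^ K ≤ b ^ K := Nat.pow_le_pow_left hb K
    omega
  have hpow : ∀ n : ℕ, n < b ^ K → (n + 1) ^ d ≤ b ^ (2 * d * K) := by
    intro n hn
    have e : b ^ (2 * d * K) = (b ^ K * b ^ K) ^ d := by
      rw [← pow_add, ← pow_mul]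
      congr 1
      ring
    rw [e]
    refine Nat.pow_le_pow_left ?_ d
    have : b ^ K ≤ b ^ K * b ^ K := Nat.le_mul_of_pos_left _ (by omega)
    omega
  have hval : ∀ (P : ℤ[X]) (m : ℕ), (∀ d' : ℕ, P.natDegree ≤ d' → ∀ n : ℕ,
      (P.eval (n : ℤ)).natAbs ≤ m * (n + 1) ^ d') → m ≤ M → P.natDegree ≤ d →
      ∀ n : ℕ, n < b ^ K → (P.eval (n : ℤ)).natAbs ≤ b ^ ((1 + 2 * d) * K) := by
    intro P m hP hm hPd n hn
    refine (hP d hPd n).trans ?_
    have e : b ^ ((1 + 2 * d) * K) = b ^ K * b ^ (2 * d * K) := by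
      rw [← pow_add]
      congr 1
      ring
    rw [e]
    exact Nat.mul_le_mul (by omega) (hpow n hn)
  have hsize : ∀ n : ℕ, n < b ^ K → ∀ i, (vals F G N i n).natAbs ≤ b ^ ((D + 2 + 2 * d) * K) := by
    intro n hn i
    refine Fin.lastCases ?_ (fun j => ?_) i
    · rw [vals_last]
      have h2 := hval G MG hMG hM2 hdG n hn
      have h3 : ((N : ℤ) - G.eval (n : ℤ)).natAbs ≤ N + (G.eval (n : ℤ)).natAbs := by omega
      have e : b ^ ((D + 2 + 2 * d) * K) = b ^ (D * K) * b ^ ((1 + 2 * d) * K) * b ^ K := by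
        rw [← pow_add, ← pow_add]
        congr 1
        ring
      rw [e]
      have h4 : 1 ≤ b ^ (D * K) := Nat.one_le_pow _ _ (by omega)
      have h5 : 1 ≤ b ^ ((1 + 2 * d) * K) := Nat.one_le_pow _ _ (by omega)
      have h6 : b ^ (D * K) ≤ b ^ (D * K) * b ^ ((1 + 2 * d) * K) :=
        Nat.le_mul_of_pos_right _ (by omega)
      have h7 : b ^ ((1 + 2 * d) * K) ≤ b ^ (D * K) * b ^ ((1 + 2 * d) * K) :=
        Nat.le_mul_of_pos_left _ (by omega)
      have h8 : b ^ (D * K) * b ^ ((1 + 2 * d) * K) * 2 ≤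
          b ^ (D * K) * b ^ ((1 + 2 * d) * K) * b ^ K := Nat.mul_le_mul_left _ (by omega)
      omega
    · rw [vals_cast]
      refine (hval (F j) (MF j) (hMF j) (hM1 j) (hdF j) n hn).trans ?_
      exact Nat.pow_le_pow_right (by omega) (Nat.mul_le_mul_right _ (by omega))
  have hpoly : ∀ i, ∃ P : ℤ[X], P.natDegree ≤ d ∧ ∀ n : ℕ, P.eval (n : ℤ) = vals F G N i n := by
    intro i
    refine Fin.lastCases ?_ (fun j => ?_) i
    · refine ⟨Polynomial.C (N : ℤ) - G, ?_, fun n => ?_⟩
      · refine (natDegree_sub_le _ _).trans ?_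
        rw [natDegree_C]
        exact max_le (by omega) hdG
      · rw [vals_last, eval_sub, eval_C]
    · exact ⟨F j, hdF j, fun n => (vals_cast F G N j n).symm⟩
  have hadm : ∀ p : ℕ, p.Prime → ∃ n : ℕ, ∀ i, ¬ (p : ℤ) ∣ vals F G N i n := by
    intro p hp
    obtain ⟨n, hn⟩ := hfix p hp
    refine ⟨n, fun i hi => hn ?_⟩
    rw [← prod_vals]
    exact hi.trans (dvd_prod_of_mem (fun i => vals F G N i n) (mem_univ i))
  obtain ⟨h2, h3⟩ := hK (vals F G N) hpoly hadm hsize A hA hprod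
  obtain ⟨hW1, hW2⟩ := hWK 0
  rw [pow_one] at hW1 hW2
  have hNA : 0 ≤ choices K A := by
    unfold choices
    exact prod_nonneg fun i _ => Nat.cast_nonneg _
  have hS := S_nonneg F G N (b ^ K)
  have hW0 : 0 ≤ WG (TP {0} 0) (b ^ K) := le_trans (by positivity) hW1
  constructor
  · rintro ⟨e, he, hcop⟩ htop
    refine le_trans ?_ ((h2 ⟨e, he, fun i => ?_⟩ htop).trans (Nat.cast_le.2 ?_))
    · change _ ≤ κ * choices K A * WG (fun n => ∏ i, vals F G N i n) (b ^ K)
      rw [WG_eq]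
      have h5 : (v / K) ^ (g + 1) ≤ WG (TP {0} 0) (b ^ K) ^ (g + 1) :=
        pow_le_pow_left₀ (by positivity) hW1 _
      calc κ * v ^ (g + 1) * choices K A * S F G N (b ^ K) / (K : ℝ) ^ (g + 1)
          = κ * choices K A * (S F G N (b ^ K) * (v / K) ^ (g + 1)) := by
            rw [div_pow]
            ring
        _ ≤ _ := mul_le_mul_of_nonneg_left (mul_le_mul_of_nonneg_left h5 hS)
            (mul_nonneg hκ.le hNA)
    · have h5 : (vals F G N i e).natAbs ∣ (value F G N e).natAbs := by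
        rw [← prod_vals, Int.natAbs_dvd_natAbs]
        exact dvd_prod_of_mem (fun i => vals F G N i e) (mem_univ i)
      exact Nat.Coprime.coprime_dvd_left h5 hcop
    · refine ND_sub fun n _ hn1 hn2 => ⟨hn1, hn2.1, fun i => ?_, ?_⟩
      · have := hn2.2 i.castSucc
        rw [vals_cast] at this
        exact this
      · have := hn2.2 (Fin.last g)
        rw [vals_last] at this
        exact this
  · refine le_trans (Nat.cast_le.2 ?_) (h3.trans ?_)
    · refine ND_sub fun n _ hn1 hn2 => ⟨hn1, fun i => ?_⟩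
      obtain ⟨hn3, hn4, hn5⟩ := hn2
      have key : ∀ m : ℕ, m.Prime → n < m ^ 2 → n < m ^ r := fun m hm hlt =>
        lt_of_lt_of_le hlt (Nat.pow_le_pow_right hm.pos (by omega))
      refine Fin.lastCases ?_ (fun j => ?_) i
      · rw [vals_last]
        exact ⟨hn4, key _ hn4 hn5⟩
      · rw [vals_cast]
        exact ⟨(hn3 j).1, key _ (hn3 j).1 (hn3 j).2⟩
    · rw [WG_eq]
      have h5 : WG (TP {0} 0) (b ^ K) ^ (g + 1) ≤ (Cv / K) ^ (g + 1) :=
        pow_le_pow_left₀ hW0 hW2 _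
      calc C * NA K A * (S F G N (b ^ K) * WG (TP {0} 0) (b ^ K) ^ (g + 1))
          ≤ C * NA K A * (S F G N (b ^ K) * (Cv / K) ^ (g + 1)) :=
            mul_le_mul_of_nonneg_left (mul_le_mul_of_nonneg_left h5 hS) (mul_nonneg hC.le hNA)
        _ = _ := by
            unfold NA choices
            rw [div_pow]
            ring

end Pool.Agent.Results.MP_0bf1d2_nt.RestrictedDigits
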