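import Pool.Agent.V1137.Pm2

/-!
Schinzel's Goldbach-type hypothesis for the polynomials `x` and `N - G(x)`, `G` an arbitrary
polynomial: for most locally possible `N` the expected number of arguments, up to a constant factor,
lies in any given set of primes which meets all short clusters of primes.
-/

set_option autoImplicit false

open Finset Filter Topology Polynomial

namespace Pool.Agent.Results.MP_0bf1d2_nt.UnavoidablePrimeArguments

/-- `P` meets all short clusters of primes: there are `M` and `ε > 0` such that, for all large `u`,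
every interval `[u, v]` with `v ≤ u + ε log u` which contains at least `M` primes contains a prime
which belongs to `P`. -/
def MeetsClusters (P : Set ℕ) : Prop := ∃ (M : ℕ) (ε : ℝ), 0 < ε ∧ ∃ u₀ : ℕ, ∀ u v : ℕ, u₀ ≤ u →
  (v : ℝ) ≤ u + ε * Real.log u → M ≤ ((Icc u v).filter Nat.Prime).card →
  ∃ p ∈ P, u ≤ p ∧ p ≤ v ∧ p.Prime

/-- The polynomial `x (N_1 - G_1(x)) ... (N_r - G_r(x))` has no fixed prime divisor. -/
def LocallyPossible {r : ℕ} (G : Fin r → ℤ[X]) (N : Fin r → ℕ) : Prop :=
  ∀ l : ℕ, l.Prime → ∃ n : ℤ, ¬ (l : ℤ) ∣ n ∧ ∀ j, ¬ (l : ℤ) ∣ (N j : ℤ) - (G j).eval n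

open Classical in
/-- The primes `n ≤ x` in `P` for which all `N_j - G_j(n)` are (positive) primes. -/
noncomputable def arguments {r : ℕ} (P : Set ℕ) (G : Fin r → ℤ[X]) (N : Fin r → ℕ) (x : ℕ) :
    Finset ℕ :=
  (Icc 1 x).filter (fun n => n.Prime ∧ n ∈ P ∧ ∀ j, ((N j : ℤ) - (G j).eval (n : ℤ)).toNat.Prime)

open Classical in
/-- The locally possible vectors with `1 ≤ N_j ≤ K x ^ deg G_j` and with fewer than
`c x / (log x) ^ (r + 1)` arguments. -/
noncomputable def exceptions {r : ℕ} (P : Set ℕ) (G : Fin r → ℤ[X]) (c : ℝ) (K x : ℕ) :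
    Finset (Fin r → ℕ) :=
  (Fintype.piFinset (fun j : Fin r => Icc 1 (K * x ^ (G j).natDegree))).filter (fun N =>
    LocallyPossible G N ∧ ((arguments P G N x).card : ℝ) < c * (x / Real.log x ^ (r + 1)))

open Pool.Agent.V1137.Unav in
/-- **Schinzel's Goldbach-type problem with arguments in a set of primes which meets all short
clusters.** Let `P` be a set which, for some `M` and `ε > 0`, contains a prime from every interval
`[u, v]`, `v ≤ u + ε log u`, `u` large, with at least `M` primes. Let `G_1, ..., G_r` be nonconstant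
integer polynomials with positive leading coefficients. For all `K` and `κ > 0` there is `c > 0` such
that for all large `x` and all locally possible vectors `(N_1, ..., N_r)`, `1 ≤ N_j ≤ K x ^ deg G_j`,
with at most `κ ∏ x ^ deg G_j` exceptions, there are at least `c x / (log x) ^ (r + 1)` primes
`n ≤ x` in `P` for which all `N_j - G_j(n)` are primes. -/
theorem result (P : Set ℕ) (hP : MeetsClusters P) (r : ℕ) (G : Fin r → ℤ[X])
    (hd : ∀ j, 1 ≤ (G j).natDegree) (hl : ∀ j, 0 < (G j).leadingCoeff) (K : ℕ) (κ : ℝ)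
    (hκ : 0 < κ) : ∃ c : ℝ, 0 < c ∧ ∀ᶠ x : ℕ in atTop,
      ((exceptions P G c K x).card : ℝ) ≤ κ * ∏ j, (x : ℝ) ^ (G j).natDegree := by
  classical
  obtain ⟨M, ε, hε, hP⟩ := hP
  obtain ⟨c, hc, x₀, h⟩ := sys_pm (fun _ : Fin r => -1) (fun _ => Or.inr rfl) G hd hl P
    (PS_most M ε hε P hP) K κ hκ
  refine ⟨c, hc, ?_⟩
  rw [eventually_atTop]
  refine ⟨x₀, fun x hx => le_trans ?_ (h x hx)⟩
  have hev : ∀ (N : Fin r → ℕ) (j : Fin r) (n : ℤ),
      (N j : ℤ) + -1 * (G j).eval n = (N j : ℤ) - (G j).eval n := by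
    intro N j n
    ring
  apply Nat.cast_le.2
  apply card_le_card
  intro N hN
  unfold exceptions at hN
  rw [mem_filter] at hN ⊢
  refine ⟨hN.1, ?_, ?_⟩
  · intro l hl
    obtain ⟨n, hn1, hn2⟩ := hN.2.1 l hl
    refine ⟨n, hn1, fun j hd => hn2 j ?_⟩
    rwa [hev] at hd
  · refine lt_of_le_of_lt ?_ hN.2.2
    apply Nat.cast_le.2
    apply card_le_card
    intro p hp
    unfold Arg at hp
    unfold arguments
    rw [mem_filter] at hp ⊢
    refine ⟨hp.1, hp.2.1, hp.2.2.1, fun i => ?_⟩
    have h1 := hp.2.2.2 i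
    rwa [hev] at h1

end Pool.Agent.Results.MP_0bf1d2_nt.UnavoidablePrimeArguments
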